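import Mathlib
import Pool.Agent.H82.SZ2.Defs

/-!
# MP_103a5c SimpleZeros version 2, blocks JE2 and JE

The far region of the left line `Re w = -1/L`, and the comparison of the mean squares on the lines
`Re w = -1/L` and `Re w = 1/L`.
-/

set_option autoImplicit false

open Complex MeasureTheory Filter Topology

namespace H69SZ2

open H82SZ Pool.Agent.H53.SZC Pool.Agent.H17.ZB

/-- the modulus of the Gaussian factor -/
theorem ex_norm (T x t : ℝ) :
    ‖Complex.exp ((ln x t - T * I) ^ 2 * (Real.log T : ℂ) / (2 * (T : ℂ) ^ 2))‖ =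
      Real.exp ((x ^ 2 - (t - T) ^ 2) * Real.log T / (2 * T ^ 2)) := by
  rw [Complex.norm_exp]
  congr 1
  have h : ((ln x t - T * I) ^ 2 * (Real.log T : ℂ) / (2 * (T : ℂ) ^ 2)) =
      (((Real.log T / (2 * T ^ 2) : ℝ)) : ℂ) * (ln x t - T * I) ^ 2 := by
    push_cast; ring
  rw [h, Complex.re_ofReal_mul, pow_two (ln x t - T * I)]
  simp
  ring

theorem ex_norm_sq (T x t : ℝ) :
    ‖Complex.exp ((ln x t - T * I) ^ 2 * (Real.log T : ℂ) / (2 * (T : ℂ) ^ 2))‖ ^ 2 =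
      Real.exp (x ^ 2 * Real.log T / T ^ 2) * Pool.Agent.H26.SZ.Gw T t := by
  rw [ex_norm, ← Real.exp_nat_mul]
  unfold Pool.Agent.H26.SZ.Gw
  rw [← Real.exp_add]
  congr 1
  rcases eq_or_ne T 0 with h | h
  · subst h
    simp
  · push_cast
    field_simp
    ring

/-- the Dirichlet polynomial is `O(T)` in the half plane `Re s ≥ 0` -/
theorem dpol_bd {θ : ℝ} {P : ℝ → ℝ} (hP : Adm θ P) :
    ∃ C : ℝ, 0 ≤ C ∧ ∀ T : ℝ, 0 ≤ T → ∀ s : ℂ, 0 ≤ s.re → ‖dpol T (xk P T) s‖ ≤ C * T := by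
  obtain ⟨C, hC⟩ := hP.cpt.exists_bound_of_continuous hP.smooth.continuous
  have hC0 : 0 ≤ C := (norm_nonneg _).trans (hC 0)
  refine ⟨C, hC0, fun T hT s hs => ?_⟩
  unfold dpol
  have h1 : ∀ n ∈ Finset.Icc 1 (NT T), ‖((xk P T n : ℝ) : ℂ) * (n : ℂ) ^ (-s)‖ ≤ C := by
    intro n hn
    have hn1 : 1 ≤ n := (Finset.mem_Icc.1 hn).1
    rw [norm_mul, Complex.norm_natCast_cpow_of_pos hn1, Complex.norm_real, Real.norm_eq_abs]
    have h2 : |xk P T n| ≤ C := by
      have h3 : xk P T n = (ArithmeticFunction.moebius n : ℝ) * P (Real.log n / Real.log T) := rfl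
      rw [h3, abs_mul]
      have h4 : |((ArithmeticFunction.moebius n : ℤ) : ℝ)| ≤ 1 := by
        exact_mod_cast ArithmeticFunction.abs_moebius_le_one
      have h5 : |P (Real.log n / Real.log T)| ≤ C := hC _
      calc |((ArithmeticFunction.moebius n : ℤ) : ℝ)| * |P (Real.log n / Real.log T)| ≤ 1 * C :=
            mul_le_mul h4 h5 (abs_nonneg _) zero_le_one
        _ = C := one_mul _
    have h6 : (n : ℝ) ^ (-s).re ≤ 1 := by
      rw [Complex.neg_re]
      exact Real.rpow_le_one_of_one_le_of_nonpos (by exact_mod_cast hn1) (by linarith)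
    calc |xk P T n| * (n : ℝ) ^ (-s).re ≤ C * 1 :=
          mul_le_mul h2 h6 (Real.rpow_nonneg (Nat.cast_nonneg _) _) hC0
      _ = C := mul_one _
  refine (norm_sum_le_of_le _ h1).trans ?_
  rw [Finset.sum_const, Nat.card_Icc, nsmul_eq_mul, Nat.add_sub_cancel, mul_comm]
  exact mul_le_mul_of_nonneg_left (Nat.floor_le hT) hC0

theorem one_le_norm_den {x : ℝ} (hx : -(1 / 2) ≤ x) (t : ℝ) : 1 ≤ ‖3 / 2 + ln x t‖ := by
  have h1 := Complex.re_le_norm (3 / 2 + ln x t)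
  have h2 : (3 / 2 + ln x t).re = 3 / 2 + x := by
    rw [Complex.add_re, ln_re]
    norm_num
  rw [h2] at h1
  linarith

theorem log_four {T : ℝ} (hT : Real.exp 4 ≤ T) : 4 ≤ Real.log T := by
  rw [Real.le_log_iff_exp_le ((Real.exp_pos 4).trans_le hT)]
  exact hT

/-- JE2 -/
theorem je2 : JE2stat := by
  intro ε P hε hε2 hP
  obtain ⟨C1, hC1, hZ⟩ := Z_poly
  obtain ⟨C2, hC2, hD⟩ := dpol_bd hP
  obtain ⟨C3, T3, hC3, hG⟩ := gauss_far
  refine ⟨3 * C1 ^ 2 * C2 ^ 2 * C3, max T3 (Real.exp 4), by positivity, fun T hT t ht => ?_⟩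
  have hTa : T3 ≤ T := (le_max_left _ _).trans hT
  have hTb : Real.exp 4 ≤ T := (le_max_right _ _).trans hT
  have hL := log_four hTb
  have hT5 : 5 ≤ T := by
    have := Real.add_one_le_exp (4 : ℝ)
    linarith
  have hT0 : 0 < T := by linarith
  have hi : 1 / Real.log T ≤ 1 / 4 := one_div_le_one_div_of_le (by norm_num) hL
  have hi0 : 0 < 1 / Real.log T := by positivity
  obtain ⟨d, hd⟩ : ∃ d, d = 1 / Real.log T := ⟨_, rfl⟩
  rw [← hd] at hi hi0 ⊢
  have hre : (1 / 2 + ln (-d) t).re = 1 / 2 - d := by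
    rw [Complex.add_re, ln_re]
    norm_num
    ring
  have him : (1 / 2 + ln (-d) t).im = t := by
    rw [Complex.add_im, ln_im]
    norm_num
  have h1 := hZ (1 / 2 + ln (-d) t) (by rw [hre]; linarith) (by rw [hre]; linarith)
  rw [him] at h1
  have h2 := hD T hT0.le (1 / 2 + ln (-d) t) (by rw [hre]; linarith)
  have h3 := one_le_norm_den (x := -d) (by linarith) t
  have h4 := ex_norm_sq T (-d) t
  have h5 := hG T hTa t ht
  have hGp := (Pool.Agent.H26.SZ.Gw_pos T t).le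
  have ha : 0 ≤ |t| := abs_nonneg t
  have h6 : Real.exp ((-d) ^ 2 * Real.log T / T ^ 2) ≤ 3 := by
    have h7 : (-d) ^ 2 * Real.log T / T ^ 2 ≤ 1 := by
      rw [div_le_one (by positivity)]
      have h8 : (-d) ^ 2 * Real.log T = d := by
        rw [hd]
        field_simp
      rw [h8]
      nlinarith
    calc Real.exp ((-d) ^ 2 * Real.log T / T ^ 2) ≤ Real.exp 1 := Real.exp_le_exp.2 h7
      _ ≤ 3 := by
        have := Real.exp_one_lt_d9
        linarith
  have h9 : ‖fz P T (ln (-d) t)‖ ≤ (C1 * (1 + |t|) ^ 2) * (C2 * T) *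
      ‖Complex.exp ((ln (-d) t - T * I) ^ 2 * (Real.log T : ℂ) / (2 * (T : ℂ) ^ 2))‖ := by
    unfold fz
    rw [norm_mul, norm_mul, norm_div]
    refine mul_le_mul_of_nonneg_right (mul_le_mul ?_ h2 (norm_nonneg _) (by positivity)) (norm_nonneg _)
    refine (div_le_self (norm_nonneg _) h3).trans h1
  have h10 : ‖fz P T (ln (-d) t)‖ ^ 2 ≤ (C1 * (1 + |t|) ^ 2) ^ 2 * (C2 * T) ^ 2 *
      (3 * Pool.Agent.H26.SZ.Gw T t) := by
    refine (pow_le_pow_left₀ (norm_nonneg _) h9 2).trans ?_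
    rw [mul_pow, mul_pow, h4]
    refine mul_le_mul_of_nonneg_left (mul_le_mul_of_nonneg_right h6 hGp) (by positivity)
  have h1t : 0 < 1 + t ^ 2 := by positivity
  rw [le_div_iff₀ h1t]
  have h11 : 1 + t ^ 2 ≤ (1 + |t|) ^ 16 := by
    have h12 : 1 + t ^ 2 ≤ (1 + |t|) ^ 2 := by
      have := sq_abs t
      nlinarith
    exact h12.trans (pow_le_pow_right₀ (by linarith) (by norm_num))
  calc ‖fz P T (ln (-d) t)‖ ^ 2 * (1 + t ^ 2)
      ≤ ((C1 * (1 + |t|) ^ 2) ^ 2 * (C2 * T) ^ 2 * (3 * Pool.Agent.H26.SZ.Gw T t)) * (1 + |t|) ^ 16 :=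
        mul_le_mul h10 h11 h1t.le (by positivity)
    _ = 3 * C1 ^ 2 * C2 ^ 2 * (T ^ 2 * Pool.Agent.H26.SZ.Gw T t * (1 + |t|) ^ 20) := by ring
    _ ≤ 3 * C1 ^ 2 * C2 ^ 2 * C3 := mul_le_mul_of_nonneg_left h5 (by positivity)

/-- the Dirichlet polynomial on the left line is the one of `P · exp(2·)` on the right line -/
theorem dpol_shift (P : ℝ → ℝ) (T t : ℝ) :
    dpol T (xk P T) (1 / 2 + ln (-(1 / Real.log T)) t) =
      dpol T (xk (fun v => P v * Real.exp (2 * v)) T) (1 / 2 + ln (1 / Real.log T) t) := by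
  unfold dpol
  refine Finset.sum_congr rfl fun n hn => ?_
  have hn1 : 1 ≤ n := (Finset.mem_Icc.1 hn).1
  have hn0 : (n : ℂ) ≠ 0 := by
    exact_mod_cast (by omega : n ≠ 0)
  have e1 : xk P T n = (ArithmeticFunction.moebius n : ℝ) * P (Real.log n / Real.log T) := rfl
  have e2 : xk (fun v => P v * Real.exp (2 * v)) T n = (ArithmeticFunction.moebius n : ℝ) *
      (P (Real.log n / Real.log T) * Real.exp (2 * (Real.log n / Real.log T))) := rfl
  have e3 : -(1 / 2 + ln (-(1 / Real.log T)) t) =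
      ((2 / Real.log T : ℝ) : ℂ) + -(1 / 2 + ln (1 / Real.log T) t) := by
    unfold ln
    push_cast
    ring
  have e4 : (n : ℂ) ^ ((2 / Real.log T : ℝ) : ℂ) =
      ((Real.exp (2 * (Real.log n / Real.log T)) : ℝ) : ℂ) := by
    rw [Complex.cpow_def_of_ne_zero hn0, ← Complex.natCast_log, ← Complex.ofReal_mul, ← Complex.ofReal_exp]
    congr 2
    ring
  rw [e1, e2, e3, Complex.cpow_add _ _ hn0, e4]
  push_cast
  ring

/-- comparison of the two lines at a point with `|t| ≤ 10 T` -/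
theorem fz_compare (P : ℝ → ℝ) {T C t : ℝ} (hL : 4 ≤ Real.log T) (hC : 0 ≤ C)
    (h : ‖riemannZeta (1 / 2 + ln (-(1 / Real.log T)) t)‖ ≤
      C * ‖riemannZeta (1 / 2 + ln (1 / Real.log T) t)‖) :
    ‖fz P T (ln (-(1 / Real.log T)) t)‖ ≤
      6 * C * ‖fz (fun v => P v * Real.exp (2 * v)) T (ln (1 / Real.log T) t)‖ := by
  have hds := dpol_shift P T t
  have hi : 1 / Real.log T ≤ 1 / 4 := one_div_le_one_div_of_le (by norm_num) hL
  have hi0 : 0 < 1 / Real.log T := by positivity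
  obtain ⟨d, hd⟩ : ∃ d, d = 1 / Real.log T := ⟨_, rfl⟩
  rw [← hd] at hi hi0 hds h ⊢
  have hdiff : ln d t - ln (-d) t = ((2 * d : ℝ) : ℂ) := by
    unfold ln
    push_cast
    ring
  have hnd : ‖ln d t - ln (-d) t‖ ≤ 1 / 2 := by
    rw [hdiff, Complex.norm_real, Real.norm_eq_abs, abs_of_pos (by linarith)]
    linarith
  have hrel : (1 / 2 + ln (-d) t).re = 1 / 2 - d := by
    rw [Complex.add_re, ln_re]
    norm_num
    ring
  have hrer : (1 / 2 + ln d t).re = 1 / 2 + d := by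
    rw [Complex.add_re, ln_re]
    norm_num
  have hsl : (1 / 2 + ln (-d) t) ≠ 1 := by
    intro h0
    rw [h0, Complex.one_re] at hrel
    linarith
  have hsr : (1 / 2 + ln d t) ≠ 1 := by
    intro h0
    rw [h0, Complex.one_re] at hrer
    linarith
  -- the factors `s - 1`
  have h1 : 1 / 4 ≤ ‖1 / 2 + ln d t - 1‖ := by
    have h2 := Complex.abs_re_le_norm (1 / 2 + ln d t - 1)
    have h3 : (1 / 2 + ln d t - 1).re = -(1 / 2 - d) := by
      rw [Complex.sub_re, hrer, Complex.one_re]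
      ring
    rw [h3, abs_neg, abs_of_pos (by linarith)] at h2
    linarith
  have h2 : ‖1 / 2 + ln (-d) t - 1‖ ≤ 3 * ‖1 / 2 + ln d t - 1‖ := by
    have h3 : 1 / 2 + ln (-d) t - 1 = (1 / 2 + ln d t - 1) - (ln d t - ln (-d) t) := by ring
    have h4 := norm_sub_le (1 / 2 + ln d t - 1) (ln d t - ln (-d) t)
    rw [← h3] at h4
    linarith
  have h5 : ‖Z (1 / 2 + ln (-d) t)‖ ≤ 3 * C * ‖Z (1 / 2 + ln d t)‖ := by
    rw [Z_of_ne hsl, Z_of_ne hsr, norm_mul, norm_mul]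
    calc ‖1 / 2 + ln (-d) t - 1‖ * ‖riemannZeta (1 / 2 + ln (-d) t)‖
        ≤ (3 * ‖1 / 2 + ln d t - 1‖) * (C * ‖riemannZeta (1 / 2 + ln d t)‖) :=
          mul_le_mul h2 h (norm_nonneg _) (by positivity)
      _ = _ := by ring
  -- the factors `s + 1`
  have h6 := one_le_norm_den (x := -d) (by linarith) t
  have h6' := one_le_norm_den (x := d) (by linarith) t
  have h7 : ‖3 / 2 + ln d t‖ ≤ 2 * ‖3 / 2 + ln (-d) t‖ := by
    have h3 : 3 / 2 + ln d t = (3 / 2 + ln (-d) t) + (ln d t - ln (-d) t) := by ring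
    have h4 := norm_add_le (3 / 2 + ln (-d) t) (ln d t - ln (-d) t)
    rw [← h3] at h4
    linarith
  have h8 : ‖Z (1 / 2 + ln (-d) t)‖ / ‖3 / 2 + ln (-d) t‖ ≤
      6 * C * (‖Z (1 / 2 + ln d t)‖ / ‖3 / 2 + ln d t‖) := by
    rw [← mul_div_assoc, div_le_div_iff₀ (by linarith) (by linarith)]
    calc ‖Z (1 / 2 + ln (-d) t)‖ * ‖3 / 2 + ln d t‖
        ≤ (3 * C * ‖Z (1 / 2 + ln d t)‖) * (2 * ‖3 / 2 + ln (-d) t‖) :=
          mul_le_mul h5 h7 (norm_nonneg _) (by positivity)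
      _ = _ := by ring
  unfold fz
  rw [norm_mul, norm_mul, norm_div, norm_mul, norm_mul, norm_div, hds, ex_norm, ex_norm, neg_sq]
  calc ‖Z (1 / 2 + ln (-d) t)‖ / ‖3 / 2 + ln (-d) t‖ *
        ‖dpol T (xk (fun v => P v * Real.exp (2 * v)) T) (1 / 2 + ln d t)‖ *
        Real.exp ((d ^ 2 - (t - T) ^ 2) * Real.log T / (2 * T ^ 2))
      ≤ (6 * C * (‖Z (1 / 2 + ln d t)‖ / ‖3 / 2 + ln d t‖)) *
        ‖dpol T (xk (fun v => P v * Real.exp (2 * v)) T) (1 / 2 + ln d t)‖ *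
        Real.exp ((d ^ 2 - (t - T) ^ 2) * Real.log T / (2 * T ^ 2)) :=
        mul_le_mul_of_nonneg_right (mul_le_mul_of_nonneg_right h8 (norm_nonneg _)) (Real.exp_nonneg _)
    _ = _ := by ring

/-- integrability of the square on a line of the strip -/
theorem sq_integrable {K x1 x2 : ℝ} {f : ℂ → ℂ} (h : SD 3 x1 x2 K f) {x : ℝ} (h1 : x1 ≤ x)
    (h2 : x ≤ x2) : Integrable fun t : ℝ => ‖f (ln x t)‖ ^ 2 := by
  have hK := h.nonneg (h1.trans h2)
  refine (integrable_inv_one_add_sq.const_mul (K ^ 2)).mono'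
    ((h.continuous h1 h2).norm.pow 2).aestronglyMeasurable (Filter.Eventually.of_forall fun t => ?_)
  have h3 := (h.mono (show 1 ≤ 3 by norm_num)).bd (ln x t) (by rw [ln_re]; exact h1)
    (by rw [ln_re]; exact h2)
  rw [ln_im, pow_one] at h3
  have h4 : (1 : ℝ) ≤ 1 + t ^ 2 := by nlinarith [sq_nonneg t]
  rw [Real.norm_of_nonneg (by positivity)]
  calc ‖f (ln x t)‖ ^ 2 ≤ (K / (1 + t ^ 2)) ^ 2 := pow_le_pow_left₀ (norm_nonneg _) h3 2
    _ = K ^ 2 * ((1 + t ^ 2)⁻¹ * (1 + t ^ 2)⁻¹) := by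
        rw [div_pow, div_eq_mul_inv, pow_two (1 + t ^ 2), mul_inv]
    _ ≤ K ^ 2 * ((1 + t ^ 2)⁻¹ * 1) := by
        refine mul_le_mul_of_nonneg_left (mul_le_mul_of_nonneg_left (inv_le_one_of_one_le₀ h4) ?_)
          (by positivity)
        positivity
    _ = _ := by rw [mul_one]

/-- JE -/
theorem je (hA : JAstat) (h1 : JE1stat) (h2 : JE2stat) : JEstat := by
  intro ε P hε hε2 hP
  obtain ⟨C1, T1, hC1, hr⟩ := h1
  obtain ⟨C2, T2, hC2, hf⟩ := h2 ε P hε hε2 hP
  refine ⟨36 * C1 ^ 2 + C2 * Real.pi, max (max T1 T2) (Real.exp 4), by positivity, fun T hT => ?_⟩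
  have hTa : T1 ≤ T := ((le_max_left _ _).trans (le_max_left _ _)).trans hT
  have hTb : T2 ≤ T := ((le_max_right _ _).trans (le_max_left _ _)).trans hT
  have hTc : Real.exp 4 ≤ T := (le_max_right _ _).trans hT
  have hL := log_four hTc
  have hT5 : 5 ≤ T := by
    have := Real.add_one_le_exp (4 : ℝ)
    linarith
  have hi : 1 / Real.log T ≤ 1 / 4 := one_div_le_one_div_of_le (by norm_num) hL
  have hi0 : 0 < 1 / Real.log T := by positivity
  obtain ⟨K, hK⟩ := hA (fun v => P v * Real.exp (2 * v)) T (by linarith)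
  have hint : Integrable fun t : ℝ =>
      ‖fz (fun v => P v * Real.exp (2 * v)) T (ln (1 / Real.log T) t)‖ ^ 2 :=
    sq_integrable hK (by linarith) (by linarith)
  have hb : ∀ t : ℝ, ‖fz P T (ln (-(1 / Real.log T)) t)‖ ^ 2 ≤
      36 * C1 ^ 2 * ‖fz (fun v => P v * Real.exp (2 * v)) T (ln (1 / Real.log T) t)‖ ^ 2 +
        C2 * (1 + t ^ 2)⁻¹ := by
    intro t
    rcases le_total |t| (10 * T) with ht | ht
    · have h3 := fz_compare P hL hC1 (hr T hTa t ht)
      have h4 := pow_le_pow_left₀ (norm_nonneg _) h3 2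
      have h5 : 0 ≤ C2 * (1 + t ^ 2)⁻¹ := by positivity
      calc ‖fz P T (ln (-(1 / Real.log T)) t)‖ ^ 2
          ≤ (6 * C1 * ‖fz (fun v => P v * Real.exp (2 * v)) T (ln (1 / Real.log T) t)‖) ^ 2 := h4
        _ = 36 * C1 ^ 2 * ‖fz (fun v => P v * Real.exp (2 * v)) T (ln (1 / Real.log T) t)‖ ^ 2 := by
            ring
        _ ≤ _ := by linarith
    · have h3 := hf T hTb t ht
      rw [div_eq_mul_inv C2] at h3
      have h4 : 0 ≤ 36 * C1 ^ 2 *
          ‖fz (fun v => P v * Real.exp (2 * v)) T (ln (1 / Real.log T) t)‖ ^ 2 := by positivity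
      linarith
  have hJ : 0 ≤ J2 (fz (fun v => P v * Real.exp (2 * v)) T) (1 / Real.log T) :=
    integral_nonneg fun t => by positivity
  calc J2 (fz P T) (-(1 / Real.log T))
      ≤ ∫ t : ℝ, (36 * C1 ^ 2 *
          ‖fz (fun v => P v * Real.exp (2 * v)) T (ln (1 / Real.log T) t)‖ ^ 2 +
          C2 * (1 + t ^ 2)⁻¹) :=
        integral_mono_of_nonneg (Filter.Eventually.of_forall fun t => by positivity)
          ((hint.const_mul _).add (integrable_inv_one_add_sq.const_mul _))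
          (Filter.Eventually.of_forall hb)
    _ = 36 * C1 ^ 2 * J2 (fz (fun v => P v * Real.exp (2 * v)) T) (1 / Real.log T) +
          C2 * Real.pi := by
        rw [integral_add (hint.const_mul _) (integrable_inv_one_add_sq.const_mul _),
          integral_const_mul, integral_const_mul, integral_univ_inv_one_add_sq]
        rfl
    _ ≤ _ := by
        have h3 : 0 ≤ C2 * Real.pi * J2 (fz (fun v => P v * Real.exp (2 * v)) T) (1 / Real.log T) := by
          positivity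
        have h4 : 0 ≤ 36 * C1 ^ 2 := by positivity
        nlinarith

end H69SZ2
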